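import Pool.Agent.H961R2.Lev.Stubs

open MeasureTheory Set Filter Topology InnerProductSpace Complex

namespace H961Lev

namespace C10aux

lemma A2_mono {Z Z' : ℤ → ℝ} (h : ∀ i, Z i ≤ Z' i) : ∀ i, A2 Z i ≤ A2 Z' i := by
  intro i
  unfold A2
  have h1 := h (i - 1)
  have h2 := h i
  have h3 := h (i + 1)
  linarith

lemma A2_iter_mono {Z Z' : ℤ → ℝ} (h : ∀ i, Z i ≤ Z' i) (j : ℕ) :
    ∀ i, (A2^[j] Z) i ≤ (A2^[j] Z') i := by
  induction j with
  | zero => simpa using h
  | succ n ih =>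
    intro i
    rw [Function.iterate_succ_apply', Function.iterate_succ_apply']
    exact A2_mono ih i

lemma A2_const (c : ℝ) : A2 (fun _ => c) = fun _ => c := by
  funext i
  unfold A2
  ring

lemma A2_iter_const (c : ℝ) (j : ℕ) : A2^[j] (fun _ => c) = fun _ => c := by
  induction j with
  | zero => rfl
  | succ n ih => rw [Function.iterate_succ_apply', ih, A2_const]

lemma A2_smul (c : ℝ) (Z : ℤ → ℝ) : A2 (fun i => c * Z i) = fun i => c * A2 Z i := by
  funext i
  unfold A2
  ring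

lemma A2_iter_smul (c : ℝ) (Z : ℤ → ℝ) (j : ℕ) :
    A2^[j] (fun i => c * Z i) = fun i => c * (A2^[j] Z) i := by
  induction j with
  | zero => rfl
  | succ n ih => rw [Function.iterate_succ_apply', ih, A2_smul, Function.iterate_succ_apply']

lemma A2_iter_bdd {Z : ℤ → ℝ} {a b : ℝ} (h : ∀ i, a ≤ Z i ∧ Z i ≤ b) (j : ℕ) :
    ∀ i, a ≤ (A2^[j] Z) i ∧ (A2^[j] Z) i ≤ b := by
  intro i
  constructor
  · have h1 := A2_iter_mono (Z := fun _ => a) (Z' := Z) (fun i => (h i).1) j i
    rw [A2_iter_const] at h1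
    exact h1
  · have h1 := A2_iter_mono (Z := Z) (Z' := fun _ => b) (fun i => (h i).2) j i
    rw [A2_iter_const] at h1
    exact h1

lemma Kop_summable {w : ℕ → ℝ} (hw : ∀ j, 0 ≤ w j) (hs : Summable w) {Z : ℤ → ℝ} {b : ℝ}
    (h : ∀ i, 0 ≤ Z i ∧ Z i ≤ b) (i : ℤ) : Summable (fun j => w j * (A2^[j] Z) i) := by
  apply Summable.of_nonneg_of_le (f := fun j => w j * b)
  · intro j
    exact mul_nonneg (hw j) (A2_iter_bdd h j i).1
  · intro j
    exact mul_le_mul_of_nonneg_left (A2_iter_bdd h j i).2 (hw j)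
  · exact hs.mul_right b

lemma Kop_mono {w : ℕ → ℝ} (hw : ∀ j, 0 ≤ w j) (hs : Summable w) {Z Z' : ℤ → ℝ} {b b' : ℝ}
    (h : ∀ i, 0 ≤ Z i ∧ Z i ≤ b) (h' : ∀ i, 0 ≤ Z' i ∧ Z' i ≤ b') (hZ : ∀ i, Z i ≤ Z' i) (i : ℤ) :
    Kop w Z i ≤ Kop w Z' i := by
  unfold Kop
  apply Summable.tsum_le_tsum _ (Kop_summable hw hs h i) (Kop_summable hw hs h' i)
  intro j
  exact mul_le_mul_of_nonneg_left (A2_iter_mono hZ j i) (hw j)

lemma Kop_nonneg {w : ℕ → ℝ} (hw : ∀ j, 0 ≤ w j) {Z : ℤ → ℝ} {b : ℝ}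
    (h : ∀ i, 0 ≤ Z i ∧ Z i ≤ b) (i : ℤ) : 0 ≤ Kop w Z i := by
  unfold Kop
  exact tsum_nonneg fun j => mul_nonneg (hw j) (A2_iter_bdd h j i).1

lemma Kop_le {w : ℕ → ℝ} (hw : ∀ j, 0 ≤ w j) (hs : Summable w) {Z : ℤ → ℝ} {b : ℝ}
    (h : ∀ i, 0 ≤ Z i ∧ Z i ≤ b) (i : ℤ) : Kop w Z i ≤ (∑' j, w j) * b := by
  unfold Kop
  rw [← tsum_mul_right]
  apply Summable.tsum_le_tsum _ (Kop_summable hw hs h i) (hs.mul_right b)
  intro j
  exact mul_le_mul_of_nonneg_left (A2_iter_bdd h j i).2 (hw j)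

lemma Kop_smul (w : ℕ → ℝ) (c : ℝ) (Z : ℤ → ℝ) (i : ℤ) :
    Kop w (fun i => c * Z i) i = c * Kop w Z i := by
  unfold Kop
  rw [← tsum_mul_left]
  congr 1
  funext j
  rw [A2_iter_smul]
  ring

lemma ind_zero (N r : ℕ) : ind N r 0 = 1 := by
  unfold ind
  rw [if_pos]
  exact ⟨0, by simp⟩

lemma ind_zero_or_one (N r : ℕ) (i : ℤ) : ind N r i = 0 ∨ ind N r i = 1 := by
  unfold ind
  split_ifs <;> simp

lemma ind_full (N R : ℕ) (hN : N = 2 * R + 1) (i : ℤ) : ind N R i = 1 := by
  unfold ind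
  rw [if_pos]
  have hpos : (0 : ℤ) < N := by omega
  refine ⟨(i + R) / N, ?_⟩
  have h1 := Int.emod_add_mul_ediv (i + R) N
  have h2 := Int.emod_nonneg (i + R) hpos.ne'
  have h3 := Int.emod_lt_of_pos (i + R) hpos
  have h4 : (i + R) / (N : ℤ) * N = N * ((i + R) / N) := mul_comm _ _
  rw [abs_le, h4]
  have hN' : (N : ℤ) = 2 * R + 1 := by rw [hN]; push_cast; ring
  constructor <;> linarith

lemma Rel_le {N R : ℕ} {v w : ℤ → ℝ} (h : Rel N R v w) (i : ℤ) : v i ≤ w 0 := by
  obtain ⟨c, ψ, h1, h2, h3⟩ := h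
  calc v i ≤ ∑ r ∈ Finset.range (R + 1), ψ r i := h2 i
    _ ≤ ∑ r ∈ Finset.range (R + 1), c r * ind N r 0 := by
        apply Finset.sum_le_sum
        intro r hr
        rw [ind_zero, mul_one]
        exact ((h1 r (by simpa [Nat.lt_succ_iff] using hr)).1 i).2
    _ ≤ w 0 := h3 0

lemma Rel_add_const {N R : ℕ} (hN : N = 2 * R + 1) {v w : ℤ → ℝ} (h : Rel N R v w) {a : ℝ}
    (ha : 0 ≤ a) : Rel N R (fun i => a + v i) (fun i => a + w i) := by
  obtain ⟨c, ψ, h1, h2, h3⟩ := h
  refine ⟨fun r => c r + if r = R then a else 0, fun r i => ψ r i + if r = R then a else 0,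
    ?_, ?_, ?_⟩
  · intro r hr
    obtain ⟨g1, g2⟩ := h1 r hr
    by_cases hrR : r = R
    · subst hrR
      simp only [if_true]
      refine ⟨fun i => ⟨add_nonneg (g1 i).1 ha, by linarith [(g1 i).2]⟩, fun i => ?_⟩
      rw [Finset.sum_add_distrib]
      have := g2 i
      simp only [Finset.sum_const, Finset.card_range, nsmul_eq_mul]
      rw [hN] at this ⊢
      push_cast
      nlinarith [this]
    · simp only [if_neg hrR, add_zero]
      exact ⟨g1, g2⟩
  · intro i
    rw [Finset.sum_add_distrib, Finset.sum_ite_eq' (Finset.range (R + 1)) R (fun _ => a)]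
    simp only [Finset.mem_range, Nat.lt_succ_self, if_true]
    have := h2 i
    linarith
  · intro i
    have : ∀ r ∈ Finset.range (R + 1), (c r + if r = R then a else 0) * ind N r i =
        c r * ind N r i + if r = R then a else 0 := by
      intro r _
      by_cases hrR : r = R
      · subst hrR
        simp only [if_true]
        rw [ind_full N r hN i]
        ring
      · simp only [if_neg hrR, add_zero]
    rw [Finset.sum_congr rfl this, Finset.sum_add_distrib,
      Finset.sum_ite_eq' (Finset.range (R + 1)) R (fun _ => a)]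
    simp only [Finset.mem_range, Nat.lt_succ_self, if_true]
    have := h3 i
    linarith

lemma Rel_zero (N R : ℕ) : Rel N R (fun _ => 0) (fun _ => 0) := by
  refine ⟨fun _ => 0, fun _ _ => 0, ?_, ?_, ?_⟩
  · intro r _
    exact ⟨fun i => ⟨le_refl _, le_refl _⟩, fun i => by simp⟩
  · intro i; simp
  · intro i; simp

lemma Rel_iter (h7 : S_C7) {N R : ℕ} (hN : N = 2 * R + 1) {v w : ℤ → ℝ} (h : Rel N R v w)
    (j : ℕ) : Rel N R (A2^[j] v) (A2^[j] w) := by
  induction j with
  | zero => simpa using h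
  | succ n ih =>
    rw [Function.iterate_succ_apply', Function.iterate_succ_apply']
    exact h7 N R _ _ hN ih

lemma Rel_Kop (h7 : S_C7) (h9 : S_C9) {N R : ℕ} (hN : N = 2 * R + 1) {v w : ℤ → ℝ} {b : ℝ}
    (hv : ∀ i, 0 ≤ v i ∧ v i ≤ b) (hw : ∀ i, 0 ≤ w i ∧ w i ≤ b)
    (h : Rel N R v w) {l : ℕ → ℝ} (hl : ∀ j, 0 ≤ l j) (hs : Summable l) :
    Rel N R (Kop l v) (Kop l w) := by
  have := h9 N R (fun j => A2^[j] v) (fun j => A2^[j] w) l b hN
    (fun j => Rel_iter h7 hN h j) hl hs ?_ ?_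
  · exact this
  · intro j i
    have := A2_iter_bdd hv j i
    rw [abs_le]
    constructor
    · linarith [this.1, this.2]
    · exact this.2
  · intro j i
    have := A2_iter_bdd hw j i
    rw [abs_le]
    constructor
    · linarith [this.1, this.2]
    · exact this.2

/-- the iteration -/
noncomputable def itZ (w : ℕ → ℝ) (h B : ℝ) (f : ℤ → ℝ) : ℕ → ℤ → ℝ
  | 0 => fun _ => B
  | (n + 1) => fun i => f i * (h + Kop w (itZ w h B f n) i)

lemma itZ_bdd {w : ℕ → ℝ} (hw : ∀ j, 0 ≤ w j) (hs : Summable w) {h B : ℝ} (hh : 0 < h)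
    (hB : 0 ≤ B) {f : ℤ → ℝ} (hf : ∀ i, 0 ≤ f i ∧ f i ≤ 1) (n : ℕ) :
    ∃ b, ∀ i, 0 ≤ itZ w h B f n i ∧ itZ w h B f n i ≤ b := by
  induction n with
  | zero => exact ⟨B, fun i => ⟨hB, le_refl _⟩⟩
  | succ n ih =>
    obtain ⟨b, hb⟩ := ih
    refine ⟨h + (∑' j, w j) * b, fun i => ?_⟩
    have h1 := Kop_nonneg hw hb i
    have h2 := Kop_le hw hs hb i
    have h3 := hf i
    show 0 ≤ f i * (h + Kop w (itZ w h B f n) i) ∧ f i * (h + Kop w (itZ w h B f n) i) ≤ _
    constructor
    · exact mul_nonneg h3.1 (by linarith)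
    · calc f i * (h + Kop w (itZ w h B f n) i) ≤ 1 * (h + Kop w (itZ w h B f n) i) :=
            mul_le_mul_of_nonneg_right h3.2 (by linarith)
        _ ≤ _ := by linarith

end C10aux

open C10aux in
theorem T_C10 : S_C7 → S_C8 → S_C9 → S_C10 := by
  intro h7 h8 h9 N R r hN hr w w' hw hws hw' hws' h B f u V hh hf hu hV huf hVi i
  have hB : 0 ≤ B := (hu 0).1.trans (hu 0).2
  have hf1 : ∀ i, 0 ≤ f i ∧ f i ≤ 1 := hf.1
  have hi1 : ∀ i, 0 ≤ ind N r i ∧ ind N r i ≤ 1 := by
    intro i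
    rcases ind_zero_or_one N r i with h | h <;> rw [h] <;> norm_num
  -- Rel along the iteration
  have hRel : ∀ k, Rel N R (itZ w h B f k) (itZ w h B (ind N r) k) := by
    intro k
    induction k with
    | zero =>
      have := Rel_add_const hN (Rel_zero N R) hB
      simpa [itZ] using this
    | succ k ih =>
      obtain ⟨b1, hb1⟩ := itZ_bdd hw hws hh hB hf1 k
      obtain ⟨b2, hb2⟩ := itZ_bdd hw hws hh hB hi1 k
      have hK := Rel_Kop h7 h9 hN (b := max b1 b2)
        (fun i => ⟨(hb1 i).1, (hb1 i).2.trans (le_max_left _ _)⟩)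
        (fun i => ⟨(hb2 i).1, (hb2 i).2.trans (le_max_right _ _)⟩) ih hw hws
      exact h8 N R r f _ _ hN hr hf (Rel_add_const hN hK hh.le)
  -- u below the iteration
  have hule : ∀ k i, u i ≤ itZ w h B f k i := by
    intro k
    induction k with
    | zero => exact fun i => (hu i).2
    | succ k ih =>
      intro i
      obtain ⟨b1, hb1⟩ := itZ_bdd hw hws hh hB hf1 k
      calc u i ≤ f i * (h + Kop w u i) := huf i
        _ ≤ f i * (h + Kop w (itZ w h B f k) i) := by
            apply mul_le_mul_of_nonneg_left _ (hf1 i).1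
            have := Kop_mono hw hws hu hb1 ih i
            linarith
  -- the upper bound
  set B' := max B h with hB'
  have hB'pos : 0 < B' := lt_of_lt_of_le hh (le_max_right _ _)
  set q := 1 - h / B' with hq
  have hhB' : h / B' ≤ 1 := (div_le_one hB'pos).2 (le_max_right _ _)
  have hq0 : 0 ≤ q := by rw [hq]; linarith
  have hq1 : q < 1 := by
    rw [hq]
    have : 0 < h / B' := div_pos hh hB'pos
    linarith
  set C1 := h + (∑' j, w j) * B with hC1
  have hC1h : h ≤ C1 := by
    have : 0 ≤ ∑' j, w j := tsum_nonneg hw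
    have := mul_nonneg this hB
    linarith
  have hC1pos : 0 < C1 := lt_of_lt_of_le hh hC1h
  have hL : ∀ k i, itZ w h B (ind N r) (k + 1) i ≤ (1 + (C1 / h - 1) * q ^ k) * V i := by
    intro k
    induction k with
    | zero =>
      intro i
      show ind N r i * (h + Kop w (itZ w h B (ind N r) 0) i) ≤ _
      rcases ind_zero_or_one N r i with hi | hi
      · rw [hi, zero_mul, pow_zero, mul_one]
        have : 0 < C1 / h := div_pos hC1pos hh
        apply mul_nonneg _ (hV i).1
        linarith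
      · rw [hi, one_mul, pow_zero, mul_one]
        have h1 : h ≤ V i := by
          have := hVi i hi
          have h2 := Kop_nonneg hw hV i
          linarith
        have h2 : Kop w (itZ w h B (ind N r) 0) i ≤ (∑' j, w j) * B :=
          Kop_le hw hws (Z := itZ w h B (ind N r) 0) (b := B) (fun i => ⟨hB, le_refl _⟩) i
        calc h + Kop w (itZ w h B (ind N r) 0) i ≤ C1 := by linarith
          _ = C1 / h * h := by field_simp
          _ ≤ C1 / h * V i := by
              exact mul_le_mul_of_nonneg_left h1 (div_pos hC1pos hh).le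
          _ = _ := by ring
    | succ k ih =>
      intro i
      show ind N r i * (h + Kop w (itZ w h B (ind N r) (k + 1)) i) ≤ _
      set L := (C1 / h - 1) * q ^ k with hLd
      have hL0 : 0 ≤ L := by
        apply mul_nonneg _ (pow_nonneg hq0 k)
        have : 1 ≤ C1 / h := (one_le_div hh).2 hC1h
        linarith
      have hL' : (C1 / h - 1) * q ^ (k + 1) = L * q := by rw [hLd]; ring
      rw [hL']
      rcases ind_zero_or_one N r i with hi | hi
      · rw [hi, zero_mul]
        apply mul_nonneg _ (hV i).1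
        have := mul_nonneg hL0 hq0
        linarith
      · rw [hi, one_mul]
        obtain ⟨b2, hb2⟩ := itZ_bdd hw hws hh hB hi1 (k + 1)
        have h1 : Kop w (itZ w h B (ind N r) (k + 1)) i ≤ (1 + L) * Kop w V i := by
          rw [← Kop_smul]
          apply Kop_mono hw hws hb2 (b' := (1 + L) * B) _ ih
          intro i
          exact ⟨mul_nonneg (by linarith) (hV i).1,
            mul_le_mul_of_nonneg_left (hV i).2 (by linarith)⟩
        have h2 := hVi i hi
        have h3 : V i ≤ B' := (hV i).2.trans (le_max_left _ _)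
        have h4 : h / B' * V i ≤ h := by
          calc h / B' * V i ≤ h / B' * B' := by
                apply mul_le_mul_of_nonneg_left h3
                positivity
            _ = h := by field_simp
        calc h + Kop w (itZ w h B (ind N r) (k + 1)) i ≤ h + (1 + L) * Kop w V i := by linarith
          _ = (1 + L) * (h + Kop w V i) - L * h := by ring
          _ ≤ (1 + L) * V i - L * (h / B' * V i) := by
              have h5 := mul_le_mul_of_nonneg_left h2 (by linarith : 0 ≤ 1 + L)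
              have h6 := mul_le_mul_of_nonneg_left h4 hL0
              linarith
          _ = (1 + L * q) * V i := by rw [hq]; ring
  -- conclusion
  have hfin : ∀ k, Kop w' u i ≤ (1 + (C1 / h - 1) * q ^ k) * Kop w' V 0 := by
    intro k
    obtain ⟨b1, hb1⟩ := itZ_bdd hw hws hh hB hf1 (k + 1)
    obtain ⟨b2, hb2⟩ := itZ_bdd hw hws hh hB hi1 (k + 1)
    have hK := Rel_Kop h7 h9 hN (b := max b1 b2)
        (fun i => ⟨(hb1 i).1, (hb1 i).2.trans (le_max_left _ _)⟩)
        (fun i => ⟨(hb2 i).1, (hb2 i).2.trans (le_max_right _ _)⟩) (hRel (k + 1)) hw' hws'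
    have hL0 : 0 ≤ (C1 / h - 1) * q ^ k := by
      apply mul_nonneg _ (pow_nonneg hq0 k)
      have : 1 ≤ C1 / h := (one_le_div hh).2 hC1h
      linarith
    calc Kop w' u i ≤ Kop w' (itZ w h B f (k + 1)) i :=
          Kop_mono hw' hws' hu hb1 (hule (k + 1)) i
      _ ≤ Kop w' (itZ w h B (ind N r) (k + 1)) 0 := Rel_le hK i
      _ ≤ Kop w' (fun i => (1 + (C1 / h - 1) * q ^ k) * V i) 0 := by
          apply Kop_mono hw' hws' hb2 (b' := (1 + (C1 / h - 1) * q ^ k) * B) _ (hL k)
          intro i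
          exact ⟨mul_nonneg (by linarith) (hV i).1,
            mul_le_mul_of_nonneg_left (hV i).2 (by linarith)⟩
      _ = _ := Kop_smul _ _ _ _
  have hlim : Tendsto (fun k : ℕ => (1 + (C1 / h - 1) * q ^ k) * Kop w' V 0) atTop
      (𝓝 ((1 + (C1 / h - 1) * 0) * Kop w' V 0)) := by
    apply Tendsto.mul_const
    apply Tendsto.const_add
    apply Tendsto.const_mul
    exact tendsto_pow_atTop_nhds_zero_of_lt_one hq0 hq1
  have := ge_of_tendsto' hlim hfin
  simpa using this

end H961Lev
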