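import Pool.Agent.H961R2.Lev.Stubs

open MeasureTheory Set Filter Topology InnerProductSpace Complex

namespace H961Lev

namespace P9aux

lemma posHalf_of_levin {E : Set ℝ} {U : ℂ → ℝ} (h : IsLevin E U) : PosHalf U := by
  refine ⟨h.cont.continuousOn, ?_, ?_⟩
  · intro z hz
    apply h.harm z
    rintro ⟨x, _, rfl⟩
    simp at hz
  · intro z _
    by_cases hz : z ∈ ((fun x : ℝ => (x : ℂ)) '' E)
    · obtain ⟨x, hx, rfl⟩ := hz
      exact (h.zero x hx).ge
    · exact (h.pos z hz).le

lemma posHalf_shift (h1 : S_H1) {U : ℂ → ℝ} (hU : PosHalf U) {H : ℝ} (hH : 0 ≤ H) :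
    PosHalf (fun z => U (z + H * I)) := by
  refine ⟨?_, ?_, ?_⟩
  · apply hU.cont.comp (by fun_prop)
    intro z hz
    simp only [mem_setOf_eq] at hz ⊢
    simp
    linarith
  · intro z hz
    apply h1.1 U (fun w => w + H * I) z (by fun_prop)
    apply hU.harm
    simp only [mem_setOf_eq] at hz ⊢
    simp
    linarith
  · intro z hz
    apply hU.nonneg
    simp
    linarith

lemma tendsto_shift {U : ℂ → ℝ} (h : Tendsto (fun y : ℝ => U (y * I) / y) atTop (𝓝 1)) {H : ℝ}
    (hH : 0 ≤ H) : Tendsto (fun y : ℝ => (fun z => U (z + H * I)) (y * I) / y) atTop (𝓝 1) := by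
  have h1 : Tendsto (fun y : ℝ => U ((y + H : ℝ) * I) / (y + H)) atTop (𝓝 1) := by
    exact h.comp (tendsto_atTop_add_const_right _ H tendsto_id)
  have h2 : Tendsto (fun y : ℝ => (y + H) / y) atTop (𝓝 1) := by
    have h3 : Tendsto (fun y : ℝ => 1 + H / y) atTop (𝓝 (1 + 0)) := by
      apply Tendsto.const_add
      exact Tendsto.div_atTop tendsto_const_nhds tendsto_id
    rw [add_zero] at h3
    apply h3.congr'
    filter_upwards [eventually_gt_atTop 0] with y hy
    field_simp
  have h3 := h1.mul h2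
  rw [one_mul] at h3
  apply h3.congr'
  filter_upwards [eventually_gt_atTop 0] with y hy
  have hy' : y + H ≠ 0 := by positivity
  have he : ((y + H : ℝ) : ℂ) * I = y * I + H * I := by push_cast; ring
  show U ((y + H : ℝ) * I) / (y + H) * ((y + H) / y) = U (y * I + H * I) / y
  rw [he]
  field_simp

lemma PK_nonneg (t : ℝ) : 0 ≤ PK 1 t := by
  unfold PK
  positivity

lemma PK_eq (t : ℝ) : PK 1 t = Real.pi⁻¹ * (1 + t ^ 2)⁻¹ := by
  unfold PK
  rw [one_div, mul_inv]
  congr 2
  ring

lemma PK_integrable (x : ℝ) : Integrable (fun t : ℝ => PK 1 (x - t)) := by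
  have h1 : Integrable (fun t : ℝ => PK 1 t) := by
    simp only [PK_eq]
    exact integrable_inv_one_add_sq.const_mul _
  exact h1.comp_sub_left x

lemma PK_integral (x : ℝ) : ∫ t : ℝ, PK 1 (x - t) = 1 := by
  rw [integral_sub_left_eq_self (fun t => PK 1 t) volume x]
  simp only [PK_eq]
  rw [integral_const_mul, integral_univ_inv_one_add_sq]
  exact inv_mul_cancel₀ Real.pi_ne_zero

lemma compl_bound {E : Set ℝ} {δ : ℝ} (hRD : RD δ E) (x : ℝ) {F : ℝ → ℝ}
    (hF : Integrable F) (hF0 : ∀ t, 0 ≤ F t) {c : ℝ} (hc : 0 ≤ c)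
    (hFc : ∀ t, |x - t| ≤ 1 / 2 → c ≤ F t) :
    ∫ t in Eᶜ, F t ≤ (∫ t, F t) - c * δ := by
  have hEm : MeasurableSet E := hRD.1.measurableSet
  have h1 := integral_add_compl hEm hF
  set S := E ∩ Icc (x - 1 / 2) (x - 1 / 2 + 1) with hS
  have hSm : MeasurableSet S := hEm.inter measurableSet_Icc
  have hSfin : volume S ≠ ⊤ := by
    apply ne_top_of_le_ne_top _ (measure_mono inter_subset_right)
    rw [Real.volume_Icc]
    exact ENNReal.ofReal_ne_top
  have h2 : ∫ t in S, F t ≤ ∫ t in E, F t := by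
    apply setIntegral_mono_set hF.integrableOn
    · exact Eventually.of_forall hF0
    · exact HasSubset.Subset.eventuallyLE inter_subset_left
  have h3 : c * volume.real S ≤ ∫ t in S, F t := by
    apply setIntegral_ge_of_const_le_real hSm hSfin _ hF.integrableOn
    intro t ht
    apply hFc
    have := ht.2
    rw [mem_Icc] at this
    rw [abs_le]
    constructor <;> linarith
  have h4 : δ ≤ volume.real S := by
    have := hRD.2 (x - 1 / 2)
    rw [← hS] at this
    rw [Measure.real]
    by_cases hδ : 0 ≤ δ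
    · rw [← ENNReal.toReal_ofReal hδ]
      exact ENNReal.toReal_mono hSfin this
    · push Not at hδ
      exact hδ.le.trans ENNReal.toReal_nonneg
  have h5 := mul_le_mul_of_nonneg_left h4 hc
  linarith

lemma RD_le_one {E : Set ℝ} {δ : ℝ} (hRD : RD δ E) : δ ≤ 1 := by
  have h1 := hRD.2 0
  have h2 : volume (E ∩ Icc (0 : ℝ) (0 + 1)) ≤ ENNReal.ofReal 1 := by
    calc volume (E ∩ Icc (0 : ℝ) (0 + 1)) ≤ volume (Icc (0 : ℝ) (0 + 1)) :=
          measure_mono inter_subset_right
      _ = ENNReal.ofReal 1 := by rw [Real.volume_Icc]; norm_num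
  have h3 := h1.trans h2
  exact (ENNReal.ofReal_le_ofReal_iff zero_le_one).1 h3

end P9aux

open P9aux in
theorem T_P9 : S_H1 → S_P4 → S_P6 → S_P8 → S_P9 := by
  intro h1 h4 h6 h8 δ E U hδ hRD hL
  have hPos := posHalf_of_levin hL
  have hδ1 := RD_le_one hRD
  set c0 : ℝ := 4 / (5 * Real.pi) with hc0
  have hpi := Real.pi_gt_three
  have hc0pos : 0 < c0 := by positivity
  have hc01 : c0 ≤ 1 := by
    rw [hc0, div_le_one (by positivity)]
    linarith
  set a := δ * c0 with ha
  have ha0 : 0 < a := mul_pos hδ hc0pos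
  have ha1 : a ≤ 1 := mul_le_one₀ hδ1 hc0pos.le hc01
  have hPKc0 : ∀ s : ℝ, |s| ≤ 1 / 2 → c0 ≤ PK 1 s := by
    intro s hs
    unfold PK
    rw [hc0, div_le_div_iff₀ (by positivity) (by positivity)]
    have : s ^ 2 ≤ 1 / 4 := by
      rw [← sq_abs]
      nlinarith [abs_nonneg s]
    nlinarith
  set H : ℝ := 6 / a with hH
  have hH6 : 6 ≤ H := by
    rw [hH, le_div_iff₀ ha0]
    linarith
  have hHpos : 0 < H := by linarith
  set θ : ℝ := 1 - a / 2 with hθ
  have hθ0 : 0 ≤ θ := by rw [hθ]; linarith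
  have hθ1 : θ < 1 := by rw [hθ]; linarith
  set om : ℝ → ℝ := fun x => U (x + H * I) with hom
  have hom0 : ∀ x, 0 ≤ om x := by
    intro x
    apply hPos.nonneg
    simp
    linarith
  obtain ⟨hi1, hi2⟩ := h4 U 1 hPos hL.norm
  obtain ⟨-, hj2⟩ := h4 (fun z => U (z + H * I)) 1 (posHalf_shift h1 hPos hHpos.le)
    (tendsto_shift hL.norm hHpos.le)
  obtain ⟨hv, hh⟩ := h6 U 1 hPos hL.norm zero_le_one
  have hgom : ∀ x : ℝ, U x ≤ om x := fun x => h8 E U hRD.1 hL x H hHpos
  -- the bound for om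
  have homint : ∀ x : ℝ, Integrable (fun t : ℝ => PK 1 (x - t) * om t) := fun x =>
    (hj2 x 1 one_pos).1
  have homb : ∀ x : ℝ, ∫ t in Eᶜ, PK 1 (x - t) * om t ≤ θ * om x := by
    intro x
    set D : ℝ := 1 + 1 / H + 1 ^ 2 / H ^ 2 with hD
    have hDpos : 0 < D := by positivity
    have e1 : ∫ t : ℝ, PK 1 (x - t) * om t ≤ ((H + 1) / H) * om x := by
      have e2 := (hj2 x 1 one_pos).2
      have e3 := (hv x H 1 hHpos one_pos).2
      have e4 : (x : ℂ) + ((1 : ℝ) : ℂ) * I + H * I = x + ((H + 1 : ℝ) : ℂ) * I := by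
        push_cast; ring
      simp only [e4] at e2
      rw [e2] at e3
      have e5 : ∫ t : ℝ, PK 1 (x - t) * om t ≤ 1 * 1 + ∫ t : ℝ, PK 1 (x - t) * U (t + H * I) := by
        rw [hom]
        linarith
      exact e5.trans e3
    have e2 := compl_bound hRD x (homint x) (fun t => mul_nonneg (PK_nonneg _) (hom0 t))
      (c := c0 * (om x / D)) (by have := hom0 x; positivity) (by
        intro t ht
        apply mul_le_mul (hPKc0 _ ht) _ (div_nonneg (hom0 x) hDpos.le) (PK_nonneg _)
        rw [div_le_iff₀ hDpos, mul_comm]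
        apply hh t x 1 H hHpos
        rw [abs_sub_comm]
        linarith)
    have e3 : (H + 1) / H - c0 / D * δ ≤ θ := by
      have f1 : (H + 1) / H = 1 + a / 6 := by
        rw [hH]; field_simp
      have f2 : D = 1 + a / 6 + (a / 6) ^ 2 := by
        rw [hD, hH]; field_simp
      have f3 : c0 / D * δ = a / D := by rw [ha]; ring
      rw [f1, f3]
      have f4 : a * (1 - a / 3) ≤ a / D := by
        rw [le_div_iff₀ hDpos, f2]
        nlinarith [mul_nonneg ha0.le ha0.le, mul_nonneg (mul_nonneg ha0.le ha0.le) ha0.le,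
          mul_nonneg (mul_nonneg ha0.le ha0.le) (mul_nonneg ha0.le ha0.le)]
      rw [hθ]
      nlinarith
    calc ∫ t in Eᶜ, PK 1 (x - t) * om t
        ≤ (∫ t, PK 1 (x - t) * om t) - c0 * (om x / D) * δ := e2
      _ ≤ ((H + 1) / H) * om x - c0 * (om x / D) * δ := by linarith
      _ = ((H + 1) / H - c0 / D * δ) * om x := by ring
      _ ≤ θ * om x := mul_le_mul_of_nonneg_right e3 (hom0 x)
  have hKb : ∀ x : ℝ, ∫ t in Eᶜ, PK 1 (x - t) ≤ 1 - a := by
    intro x
    have := compl_bound hRD x (PK_integrable x) (fun t => PK_nonneg _) hc0pos.le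
      (fun t ht => hPKc0 _ ht)
    rw [PK_integral] at this
    rw [ha]
    linarith
  -- the basic inequality
  have hg : ∀ x : ℝ, U x ≤ 1 + ∫ t in Eᶜ, PK 1 (x - t) * U t := by
    intro x
    have e1 := h8 E U hRD.1 hL x 1 one_pos
    rw [(hi2 x 1 one_pos).2] at e1
    have e2 : ∫ t : ℝ, PK 1 (x - t) * U t = ∫ t in Eᶜ, PK 1 (x - t) * U t := by
      symm
      apply setIntegral_eq_integral_of_forall_compl_eq_zero
      intro t ht
      rw [mem_compl_iff, not_not] at ht
      rw [hL.zero t ht, mul_zero]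
    rw [e2] at e1
    linarith
  have hind : ∀ (k : ℕ) (x : ℝ), U x ≤ θ ^ k * om x + 1 / a := by
    intro k
    induction k with
    | zero =>
      intro x
      have := hgom x
      have h' : 0 < 1 / a := by positivity
      rw [pow_zero, one_mul]
      linarith
    | succ k ih =>
      intro x
      have e1 : ∫ t in Eᶜ, PK 1 (x - t) * U t ≤
          ∫ t in Eᶜ, (θ ^ k * (PK 1 (x - t) * om t) + (1 / a) * PK 1 (x - t)) := by
        apply setIntegral_mono (hi2 x 1 one_pos).1.integrableOn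
        · exact (((homint x).const_mul _).add ((PK_integrable x).const_mul _)).integrableOn
        · intro t
          have := mul_le_mul_of_nonneg_left (ih t) (PK_nonneg (x - t))
          simp only
          linarith
      rw [integral_add ((homint x).const_mul _).integrableOn
        ((PK_integrable x).const_mul _).integrableOn, integral_const_mul, integral_const_mul] at e1
      have e2 := mul_le_mul_of_nonneg_left (homb x) (pow_nonneg hθ0 k)
      have e3 := mul_le_mul_of_nonneg_left (hKb x) (by positivity : 0 ≤ 1 / a)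
      have e4 : 1 / a * (1 - a) = 1 / a - 1 := by field_simp
      have e5 := hg x
      calc U x ≤ 1 + (θ ^ k * (θ * om x) + (1 / a - 1)) := by linarith
        _ = _ := by ring
  refine ⟨1 / a, fun x => ?_⟩
  have hlim : Tendsto (fun k : ℕ => θ ^ k * om x + 1 / a) atTop (𝓝 (0 * om x + 1 / a)) := by
    apply Tendsto.add_const
    apply Tendsto.mul_const
    exact tendsto_pow_atTop_nhds_zero_of_lt_one hθ0 hθ1
  have := ge_of_tendsto' hlim (fun k => hind k x)
  simpa using this

end H961Lev
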